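import Mathlib
import Pool.Agent.helper36.FriezeInt

/-!
Every cluster variable takes an integer value at every tame `SL_k`-frieze with integer entries.
This answers the question in the negative: there is no tame `SL_k`-frieze with positive integer
values at which some cluster variable takes a non-integer value.
-/

namespace Pool.Agent.Results.MP_03aa11_co.ClusterIntegrality

open Pool.Agent.helper36

/-- For all `k ≥ 2`, `w ≥ 1` and every tame `SL_k`-frieze `M` of width `w` with integer values:
some `k × n` matrix corresponds to `M` (`n = k + w + 1`), and for every such matrix `A` every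
cluster variable of the standard cluster structure on `Gr(k, n)` is regular at `A` and takes there
a unique value, which is an integer. -/
theorem result (k w : ℕ) (hk : 2 ≤ k) (_hw : 1 ≤ w) (M : ℤ → ℤ → ℚ) (hM : IsTameFrieze k w M)
    (hint : ∀ i j : ℤ, 0 ≤ j - i → j - i ≤ w - 1 → ∃ m : ℤ, M i j = m) :
    (∃ A : Matrix (Fin k) (Fin (k + (w + 1))) ℚ, Corresponds A M) ∧
    ∀ A : Matrix (Fin k) (Fin (k + (w + 1))) ℚ, Corresponds A M →
      ∀ z : MatField k (k + (w + 1)), IsClusterVariable k (w + 1) z →
        ∃ c : ℤ, Ev (evalAt A) z (c : ℚ) ∧ ∀ c' : ℚ, Ev (evalAt A) z c' → c' = c :=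
  ⟨⟨_, corresponds_window hk hM⟩, fun A hA z hz =>
    frieze_cluster_int hk hM hint 0 0 A (corresponds_window_eq hk hM A hA) z hz⟩

end Pool.Agent.Results.MP_03aa11_co.ClusterIntegrality
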